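import Pool.Agent.H172R2.GS.All

/-!
# Matrix Spencer for block diagonal matrices
-/

set_option autoImplicit false

open scoped Matrix.Norms.L2Operator Matrix
open Finset

namespace Pool.Agent.H172R2.GS

/-- block diagonal matrix Spencer, blocks of dimension `0` allowed -/
theorem blocks_all : ∃ C : ℝ, 0 < C ∧ ∀ (ι : Type) [Fintype ι] [DecidableEq ι] (d : ι → ℕ) (n : ℕ),
    ∑ i, d i ^ 2 ≤ n →
    ∀ (J : Type) [Fintype J] [DecidableEq J] (A : J → (i : ι) → Matrix (Fin (d i)) (Fin (d i)) ℂ),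
      Fintype.card J ≤ n → (∀ g i, ‖A g i‖ ≤ 1) →
      ∃ ε : J → ℝ, (∀ g, ε g = 1 ∨ ε g = -1) ∧
        ∀ i, ‖∑ g, ((ε g : ℝ) : ℂ) • A g i‖ ≤
          C * (n : ℝ) ^ (3 / 8 : ℝ) * (Fintype.card J : ℝ) ^ (1 / 8 : ℝ) := by
  obtain ⟨C, hC, h⟩ := main_all
  refine ⟨C, hC, ?_⟩
  intro ι _ _ d n hd J _ _ A hJ hA
  have hd' : ∑ i : {i : ι // 0 < d i}, d i.1 ^ 2 ≤ n := by
    refine le_trans ?_ hd
    have := Finset.sum_subtype_eq_sum_filter (s := (Finset.univ : Finset ι)) (fun i => d i ^ 2)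
      (p := fun i => 0 < d i)
    have h2 : ∑ i : {i : ι // 0 < d i}, d i.1 ^ 2 =
        ∑ i ∈ Finset.univ.filter (fun i => 0 < d i), d i ^ 2 := by
      rw [← this]; simp
    rw [h2]
    exact Finset.sum_le_sum_of_subset (Finset.filter_subset _ _)
  obtain ⟨ε, hε, hb⟩ := h {i : ι // 0 < d i} (fun i => d i.1) n (fun i => i.2) hd' J
    (fun g i => A g i.1) hJ (fun g i => hA g i.1)
  refine ⟨ε, hε, fun i => ?_⟩
  by_cases hi : 0 < d i
  · exact hb ⟨i, hi⟩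
  · have h0 : d i = 0 := by omega
    have : (∑ g, ((ε g : ℝ) : ℂ) • A g i) = 0 := by
      ext a b
      exact absurd a.2 (by omega)
    rw [this, norm_zero]
    positivity

end Pool.Agent.H172R2.GS
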